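import Mathlib

/-!
# K3 Tel: sums of `f j / (j (j+1))` for step functions
-/

set_option autoImplicit false

namespace Pool.Agent.H36.K3

/-- the weight -/
noncomputable def wt (f : ℕ → ℕ) (j : ℕ) : ℝ := (f j : ℝ) / (j * (j + 1))

/-- sum of the weights over `[x, y)` -/
noncomputable def ws (f : ℕ → ℕ) (x y : ℕ) : ℝ := ∑ j ∈ Finset.Ico x y, wt f j

theorem wt_nonneg (f : ℕ → ℕ) (j : ℕ) : 0 ≤ wt f j := by
  unfold wt
  positivity

theorem ws_add (f : ℕ → ℕ) {x y z : ℕ} (h1 : x ≤ y) (h2 : y ≤ z) : ws f x y + ws f y z = ws f x z := by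
  unfold ws
  exact Finset.sum_Ico_consecutive _ h1 h2

theorem ws_mono (f : ℕ → ℕ) {x y z : ℕ} (h2 : y ≤ z) : ws f x y ≤ ws f x z := by
  unfold ws
  refine Finset.sum_le_sum_of_subset_of_nonneg ?_ (fun j _ _ => wt_nonneg f j)
  exact Finset.Ico_subset_Ico_right h2

theorem sum_tele {x y : ℕ} (hx : 1 ≤ x) (h : x ≤ y) : ∑ j ∈ Finset.Ico x y, (1 : ℝ) / (j * (j + 1)) = 1 / x - 1 / y := by
  induction y, h using Nat.le_induction with
  | base => simp
  | succ y hy ih =>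
    rw [Finset.sum_Ico_succ_top hy, ih]
    have h1 : (y : ℝ) ≠ 0 := by
      have : 0 < y := by omega
      positivity
    have h2 : (x : ℝ) ≠ 0 := by
      have : 0 < x := by omega
      positivity
    have h3 : (y : ℝ) + 1 ≠ 0 := by positivity
    push_cast
    field_simp
    ring

theorem ws_le {f : ℕ → ℕ} {x y v : ℕ} (hx : 1 ≤ x) (h : x ≤ y) (hf : ∀ j, x ≤ j → j < y → f j ≤ v) :
    ws f x y ≤ v * (1 / (x : ℝ) - 1 / y) := by
  rw [← sum_tele hx h, Finset.mul_sum]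
  unfold ws wt
  refine Finset.sum_le_sum fun j hj => ?_
  rw [Finset.mem_Ico] at hj
  rw [mul_one_div]
  apply div_le_div_of_nonneg_right _ (by positivity)
  exact_mod_cast hf j hj.1 hj.2

theorem le_ws {f : ℕ → ℕ} {x y v : ℕ} (hx : 1 ≤ x) (h : x ≤ y) (hf : ∀ j, x ≤ j → j < y → v ≤ f j) :
    v * (1 / (x : ℝ) - 1 / y) ≤ ws f x y := by
  rw [← sum_tele hx h, Finset.mul_sum]
  unfold ws wt
  refine Finset.sum_le_sum fun j hj => ?_
  rw [Finset.mem_Ico] at hj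
  rw [mul_one_div]
  apply div_le_div_of_nonneg_right _ (by positivity)
  exact_mod_cast hf j hj.1 hj.2

/-- the sum for a step function with the steps `(y, v)` starting at `x` -/
def tel : ℕ → List (ℕ × ℕ) → ℚ
  | _, [] => 0
  | x, e :: t => (e.2 : ℚ) * (1 / (x : ℚ) - 1 / (e.1 : ℚ)) + tel e.1 t

/-- the last step -/
def lst : ℕ → List (ℕ × ℕ) → ℕ
  | x, [] => x
  | _, e :: t => lst e.1 t

/-- upper bounds on all steps -/
def ChU (f : ℕ → ℕ) : ℕ → List (ℕ × ℕ) → Prop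
  | _, [] => True
  | x, e :: t => x ≤ e.1 ∧ (∀ j, x ≤ j → j < e.1 → f j ≤ e.2) ∧ ChU f e.1 t

/-- lower bounds on all steps -/
def ChL (f : ℕ → ℕ) : ℕ → List (ℕ × ℕ) → Prop
  | _, [] => True
  | x, e :: t => x ≤ e.1 ∧ (∀ j, x ≤ j → j < e.1 → e.2 ≤ f j) ∧ ChL f e.1 t

theorem ws_le_tel (f : ℕ → ℕ) : ∀ (l : List (ℕ × ℕ)) (x : ℕ), 1 ≤ x → ChU f x l → x ≤ lst x l ∧ ws f x (lst x l) ≤ (tel x l : ℝ)
  | [], x, _, _ => by simp [lst, tel, ws]
  | e :: t, x, hx, h => by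
    obtain ⟨h1, h2, h3⟩ := h
    obtain ⟨h4, h5⟩ := ws_le_tel f t e.1 (hx.trans h1) h3
    refine ⟨h1.trans h4, ?_⟩
    have h6 := ws_le hx h1 h2
    have h7 := ws_add f h1 h4
    show ws f x (lst e.1 t) ≤ _
    rw [← h7, tel]
    push_cast
    linarith

theorem tel_le_ws (f : ℕ → ℕ) : ∀ (l : List (ℕ × ℕ)) (x : ℕ), 1 ≤ x → ChL f x l → x ≤ lst x l ∧ (tel x l : ℝ) ≤ ws f x (lst x l)
  | [], x, _, _ => by simp [lst, tel, ws]
  | e :: t, x, hx, h => by
    obtain ⟨h1, h2, h3⟩ := h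
    obtain ⟨h4, h5⟩ := tel_le_ws f t e.1 (hx.trans h1) h3
    refine ⟨h1.trans h4, ?_⟩
    have h6 := le_ws hx h1 h2
    have h7 := ws_add f h1 h4
    show _ ≤ ws f x (lst e.1 t)
    rw [← h7, tel]
    push_cast
    linarith

/-- regrouping: `f (p q + r) ≤ g q` -/
theorem ws_scale (f g : ℕ → ℕ) (p a : ℕ) (hp : 1 ≤ p) (ha : 1 ≤ a) (h : ∀ q r, r < p → f (p * q + r) ≤ g q) :
    ∀ N, a ≤ N → ws f (p * a) (p * N) ≤ ws g a N / p := by
  intro N hN
  induction N, hN using Nat.le_induction with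
  | base => simp [ws]
  | succ N hN ih =>
    have h1 : p * N ≤ p * (N + 1) := Nat.mul_le_mul_left _ (Nat.le_succ _)
    rw [← ws_add f (Nat.mul_le_mul_left _ hN) h1, ← ws_add g hN (Nat.le_succ N), add_div]
    refine add_le_add ih ?_
    have h2 : ws f (p * N) (p * (N + 1)) ≤ (g N : ℝ) * (1 / ((p * N : ℕ) : ℝ) - 1 / ((p * (N + 1) : ℕ) : ℝ)) := by
      refine ws_le (Nat.one_le_iff_ne_zero.2 (by
        have : 0 < p * N := Nat.mul_pos hp (ha.trans hN)
        omega)) h1 ?_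
      intro j hj1 hj2
      have h3 := h N (j - p * N) (by
        rw [Nat.mul_succ] at hj2
        omega)
      rwa [Nat.add_sub_cancel' hj1] at h3
    have h4 : ws g N (N + 1) = (g N : ℝ) / (N * (N + 1)) := by
      unfold ws wt
      rw [Finset.sum_Ico_succ_top le_rfl]
      simp
    rw [h4]
    refine h2.trans (le_of_eq ?_)
    have hN0 : (N : ℝ) ≠ 0 := by
      have : 0 < N := by omega
      positivity
    have hp0 : (p : ℝ) ≠ 0 := by positivity
    have hN1 : (N : ℝ) + 1 ≠ 0 := by positivity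
    push_cast
    field_simp
    ring

end Pool.Agent.H36.K3
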